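import Pool.Agent.Helper51.PP.Spec

/-!
# Swarm PC, part CH7: entropy lower bound
-/

set_option autoImplicit false

namespace Pool.Agent.Helper19.PC.CH7

open Pool.Agent.Helper51.PP

theorem main (hCH1 : S_CH1) : S_CH7 := by
  intro X E _ _ nx rev hrev x0 n B hB hpk
  obtain ⟨h0, hfin, hsum, -, -, -⟩ := hCH1 nx rev hrev x0 n
  set p := pk nx x0 n with hp
  set s := hfin.toFinset with hs
  have hout : ∀ y, y ∉ s → p y = 0 := by
    intro y hy
    by_contra hne
    exact hy (hfin.mem_toFinset.2 hne)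
  have e1 : ∑' y, p y = ∑ y ∈ s, p y := tsum_eq_sum fun y hy => hout y hy
  have e2 : ent nx x0 n = ∑ y ∈ s, Real.negMulLog (p y) := by
    unfold ent
    refine tsum_eq_sum fun y hy => ?_
    have : pk nx x0 n y = 0 := hout y hy
    rw [this, Real.negMulLog_zero]
  rw [e2]
  have e3 : -Real.log B = ∑ y ∈ s, p y * (-Real.log B) := by
    rw [← Finset.sum_mul, ← e1, hsum, one_mul]
  rw [e3]
  refine Finset.sum_le_sum fun y _ => ?_
  rcases (h0 y).eq_or_lt with h | h
  · have h' : p y = 0 := h.symm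
    rw [h', Real.negMulLog_zero, zero_mul]
  · have h' : 0 < p y := h
    unfold Real.negMulLog
    have h1 := Real.log_le_log h' (hpk y)
    nlinarith

end Pool.Agent.Helper19.PC.CH7
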